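import Mathlib

/-!
# Strongly CP-generic predicates need not extend to proper elementary extensions

The standard model `ℕ` has strongly CP-generic subsets `X`, and for every one of them, every
proper elementary extension `(N, Y)` of `(ℕ, X)` has `Y` not strongly CP-generic in `N`.
-/

universe u

namespace Pool.Agent.Results.MP_486437_lc.StandardModelCounterexample

open FirstOrder FirstOrder.Language

/-- function symbols of the language of arithmetic: `0`, `1`, `+`, `·` -/
inductive PAFun : ℕ → Type
  | zero : PAFun 0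
  | one : PAFun 0
  | add : PAFun 2
  | mul : PAFun 2

/-- relation symbols of the language of arithmetic: `<` -/
inductive PARel : ℕ → Type
  | lt : PARel 2

/-- relation symbols of the expanded language: `<` and the unary predicate `U` -/
inductive PAURel : ℕ → Type
  | lt : PAURel 2
  | U : PAURel 1

/-- the language of Peano arithmetic `{0, 1, +, ·, <}` -/
def LPA : FirstOrder.Language.{0, 0} := ⟨PAFun, PARel⟩

/-- the language of Peano arithmetic with one extra unary predicate symbol `U` -/
def LPAU : FirstOrder.Language.{0, 0} := ⟨PAFun, PAURel⟩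

section Ops

variable {M : Type u} [S : LPA.Structure M]

/-- the element denoted by `0` -/
def zeroM : M := S.funMap PAFun.zero ![]

/-- the element denoted by `1` -/
def oneM : M := S.funMap PAFun.one ![]

/-- addition of the model -/
def addM (x y : M) : M := S.funMap PAFun.add ![x, y]

/-- multiplication of the model -/
def mulM (x y : M) : M := S.funMap PAFun.mul ![x, y]

/-- the order of the model -/
def ltM (x y : M) : Prop := S.RelMap PARel.lt ![x, y]

end Ops

/-- `M` is a model of Peano arithmetic: the successor, addition, multiplication and order axioms,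
and induction for all sets definable with parameters. -/
structure IsPAModel (M : Type u) [LPA.Structure M] : Prop where
  succ_ne_zero : ∀ x : M, addM x oneM ≠ zeroM
  succ_inj : ∀ x y : M, addM x oneM = addM y oneM → x = y
  add_zero : ∀ x : M, addM x zeroM = x
  add_succ : ∀ x y : M, addM x (addM y oneM) = addM (addM x y) oneM
  mul_zero : ∀ x : M, mulM x zeroM = (zeroM : M)
  mul_succ : ∀ x y : M, mulM x (addM y oneM) = addM (mulM x y) x
  lt_iff : ∀ x y : M, ltM x y ↔ ∃ z : M, addM x (addM z oneM) = y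
  induction : ∀ D : Set (Fin 1 → M), (Set.univ : Set M).Definable LPA D →
    ![zeroM] ∈ D → (∀ x : M, ![x] ∈ D → ![addM x oneM] ∈ D) → ∀ x : M, ![x] ∈ D

/-- `B ⊆ Mⁿ` is spread: it is infinite, its tuples have pairwise distinct entries, and distinct
tuples of `B` have disjoint sets of entries. -/
def Spread {M : Type u} {n : ℕ} (B : Set (Fin n → M)) : Prop :=
  B.Infinite ∧ (∀ b ∈ B, Function.Injective b) ∧
    ∀ b ∈ B, ∀ c ∈ B, b ≠ c → ∀ i j, b i ≠ c j

/-- `X ⊆ M` is strongly CP-generic in the `LPA`-structure `M`. -/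
def StronglyCPGeneric {M : Type u} [LPA.Structure M] (X : Set M) : Prop :=
  ∀ n : ℕ, 1 ≤ n → ∀ D : Set (Fin n → M), (Set.univ : Set M).Definable LPA D →
    (∃ B : Set (Fin n → M), B ⊆ D ∧ Spread B) →
      ∀ I : Set (Fin n), ∃ b ∈ D, ∀ i, b i ∈ X ↔ i ∈ I

/-- the expansion `(M, X)` of the `LPA`-structure `M`, in which `U` is interpreted by `X` -/
@[reducible] def expand {M : Type u} (S : LPA.Structure M) (X : Set M) : LPAU.Structure M where
  funMap := fun {_} f x => S.funMap f x
  RelMap := fun {_} r x =>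
    match r, x with
    | PAURel.lt, x => S.RelMap PARel.lt x
    | PAURel.U, x => x 0 ∈ X

/-- `(N, Y)`, together with the embedding `j`, is a proper elementary extension of `(M, X)` -/
def IsProperElemExt {M : Type} (SM : LPA.Structure M) (X : Set M) {N : Type u}
    (SN : LPA.Structure N) (Y : Set N) (j : M → N) : Prop :=
  (∃ e : @ElementaryEmbedding LPAU M N (expand SM X) (expand SN Y), ⇑e = j) ∧
    ¬ Function.Surjective j

/-- the standard model -/
instance natStructure : LPA.Structure ℕ where
  funMap := fun {_} f x =>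
    match f, x with
    | PAFun.zero, _ => 0
    | PAFun.one, _ => 1
    | PAFun.add, x => x 0 + x 1
    | PAFun.mul, x => x 0 * x 1
  RelMap := fun {_} r x =>
    match r, x with
    | PARel.lt, x => x 0 < x 1

@[simp] theorem nat_zero : (zeroM : ℕ) = 0 := rfl
@[simp] theorem nat_one : (oneM : ℕ) = 1 := rfl
@[simp] theorem nat_add (x y : ℕ) : addM x y = x + y := rfl
@[simp] theorem nat_mul (x y : ℕ) : mulM x y = x * y := rfl
@[simp] theorem nat_lt (x y : ℕ) : ltM x y ↔ x < y := Iff.rfl

theorem nat_isPAModel : IsPAModel ℕ where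
  succ_ne_zero := by intro x; simp
  succ_inj := by intro x y h; simpa using h
  add_zero := by intro x; simp
  add_succ := by intro x y; simp [Nat.add_assoc]
  mul_zero := by intro x; simp
  mul_succ := by intro x y; simp [Nat.mul_succ]
  lt_iff := by
    intro x y
    simp only [nat_lt, nat_add, nat_one]
    constructor
    · intro h
      exact ⟨y - x - 1, by omega⟩
    · rintro ⟨z, hz⟩
      omega
  induction := by
    intro D _ h0 hs x
    induction x with
    | zero => exact h0
    | succ n ih => exact hs n ih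

/-! ### Existence of strongly CP-generic subsets of `ℕ` -/

/-- finite conditions -/
structure Cond where
  P : Finset ℕ
  Q : Finset ℕ
  disj : Disjoint P Q

instance : Preorder Cond where
  le a b := a.P ⊆ b.P ∧ a.Q ⊆ b.Q
  le_refl a := ⟨Finset.Subset.refl _, Finset.Subset.refl _⟩
  le_trans a b c h1 h2 := ⟨h1.1.trans h2.1, h1.2.trans h2.2⟩

theorem exists_forcing (p : Cond) {n : ℕ} {D B : Set (Fin n → ℕ)} (hBD : B ⊆ D)
    (hB : Spread B) (I : Set (Fin n)) :
    ∃ q : Cond, p ≤ q ∧ ∃ b ∈ D, (∀ i ∈ I, b i ∈ q.P) ∧ (∀ i ∉ I, b i ∈ q.Q) := by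
  classical
  -- a tuple of `B` that avoids the finite set decided so far
  obtain ⟨b, hbB, hb⟩ : ∃ b ∈ B, ∀ i, b i ∉ p.P ∪ p.Q := by
    by_contra hcon
    push Not at hcon
    choose f hf using hcon
    have hinj : Function.Injective fun b : B => (⟨b.1 (f b.1 b.2), hf b.1 b.2⟩ :
        {x // x ∈ p.P ∪ p.Q}) := by
      intro b c hbc
      by_contra hne
      have h1 : b.1 ≠ c.1 := fun h => hne (Subtype.ext h)
      exact hB.2.2 b.1 b.2 c.1 c.2 h1 _ _ (congrArg Subtype.val hbc)
    have : Finite B := Finite.of_injective _ hinj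
    exact hB.1 (Set.toFinite B)
  refine ⟨⟨p.P ∪ (Finset.univ.filter (· ∈ I)).image b, p.Q ∪ (Finset.univ.filter (· ∉ I)).image b,
    ?_⟩, ⟨Finset.subset_union_left, Finset.subset_union_left⟩, b, hBD hbB, ?_, ?_⟩
  · rw [Finset.disjoint_left]
    intro x hx hx2
    simp only [Finset.mem_union, Finset.mem_image, Finset.mem_filter, Finset.mem_univ,
      true_and] at hx hx2
    rcases hx with hx | ⟨i, hi, rfl⟩
    · rcases hx2 with hx2 | ⟨j, hj, rfl⟩
      · exact (Finset.disjoint_left.mp p.disj hx) hx2
      · exact hb j (Finset.mem_union_left _ hx)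
    · rcases hx2 with hx2 | ⟨j, hj, hji⟩
      · exact hb i (Finset.mem_union_right _ hx2)
      · have := hB.2.1 b hbB hji
        subst this
        exact hj hi
  · intro i hi
    exact Finset.mem_union_right _ (Finset.mem_image_of_mem _ (by simp [hi]))
  · intro i hi
    exact Finset.mem_union_right _ (Finset.mem_image_of_mem _ (by simp [hi]))

/-- the countably many tasks -/
def Task : Type := Σ n : ℕ, (LPA[[(Set.univ : Set ℕ)]].Formula (Fin n)) × Set (Fin n)

instance : Countable (Σ l, LPA.Functions l) := by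
  have : ∀ l, Countable (LPA.Functions l) := by
    intro l
    refine Function.Injective.countable (f := fun x : LPA.Functions l => match x with
      | PAFun.zero => 0
      | PAFun.one => 1
      | PAFun.add => 2
      | PAFun.mul => (3 : ℕ)) ?_
    intro a b hab
    cases a <;> cases b <;> first | rfl | simp at hab
  infer_instance

instance : Countable (Σ l, LPA.Relations l) := by
  have : ∀ l, Countable (LPA.Relations l) := by
    intro l
    refine Function.Injective.countable (f := fun x : LPA.Relations l => (0 : ℕ)) ?_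
    intro a b hab
    cases a; cases b; rfl
  infer_instance

instance : Countable LPA.Symbols := by
  unfold FirstOrder.Language.Symbols
  infer_instance

instance : Countable Task := by
  unfold Task
  infer_instance

theorem exists_stronglyCPGeneric : ∃ X : Set ℕ, StronglyCPGeneric X := by
  classical
  have : Encodable Task := Encodable.ofCountable Task
  let good : Task → Cond → Prop := fun t q =>
    (1 ≤ t.1 ∧ ∃ B : Set (Fin t.1 → ℕ), B ⊆ Set.ofPred t.2.1.Realize ∧ Spread B) →
      ∃ b ∈ Set.ofPred t.2.1.Realize, (∀ i ∈ t.2.2, b i ∈ q.P) ∧ (∀ i ∉ t.2.2, b i ∈ q.Q)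
  have hcof : ∀ t : Task, IsCofinal {q : Cond | good t q} := by
    intro t p
    by_cases h : 1 ≤ t.1 ∧ ∃ B : Set (Fin t.1 → ℕ), B ⊆ Set.ofPred t.2.1.Realize ∧ Spread B
    · obtain ⟨-, B, hB, hsp⟩ := h
      obtain ⟨q, hq, hb⟩ := exists_forcing p hB hsp t.2.2
      exact ⟨q, fun _ => hb, hq⟩
    · exact ⟨p, fun h2 => absurd h2 h, le_refl p⟩
  let DD : Task → Order.Cofinal Cond := fun t => ⟨{q : Cond | good t q}, hcof t⟩
  let p0 : Cond := ⟨∅, ∅, by simp⟩
  let J := Order.idealOfCofinals p0 DD
  refine ⟨{x | ∃ q ∈ J, x ∈ q.P}, ?_⟩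
  intro n hn D hD hB I
  obtain ⟨φ, rfl⟩ := hD
  obtain ⟨q, hq, hqJ⟩ := Order.cofinal_meets_idealOfCofinals p0 DD (⟨n, φ, I⟩ : Task)
  obtain ⟨b, hbD, hb1, hb2⟩ := hq ⟨hn, hB⟩
  refine ⟨b, hbD, fun i => ⟨?_, fun hi => ⟨q, hqJ, hb1 i hi⟩⟩⟩
  rintro ⟨r, hrJ, hr⟩
  by_contra hi
  obtain ⟨s, -, hsr, hsq⟩ := J.directed r hrJ q hqJ
  exact Finset.disjoint_left.mp s.disj (hsr.1 hr) (hsq.2 (hb2 i hi))

/-! ### Gaps of every length -/

theorem definable_shift (n : ℕ) (i i0 : Fin n) :
    (Set.univ : Set ℕ).Definable LPA {v : Fin n → ℕ | v i = v i0 + (i : ℕ)} := by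
  rw [Set.definable_iff_exists_formula_sum]
  refine ⟨Term.equal (Term.var (Sum.inr i))
    (Term.func (L := LPA) (l := 2) PAFun.add
      ![Term.var (Sum.inr i0), Term.var (Sum.inl ⟨(i : ℕ), trivial⟩)]), ?_⟩
  ext v
  simp only [Set.mem_ofPred_eq, Formula.realize_equal, Term.realize]
  exact Iff.rfl

theorem gaps {X : Set ℕ} (hX : StronglyCPGeneric X) (n : ℕ) :
    ∃ x : ℕ, ∀ y, x ≤ y → y < x + n → y ∉ X := by
  classical
  rcases Nat.eq_zero_or_pos n with rfl | hn
  · exact ⟨0, fun y _ h => absurd h (by omega)⟩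
  let i0 : Fin n := ⟨0, hn⟩
  let D : Set (Fin n → ℕ) := {v | ∀ i : Fin n, v i = v i0 + (i : ℕ)}
  have hD : (Set.univ : Set ℕ).Definable LPA D := by
    have h := Set.definable_finset_inf (fun i => definable_shift n i i0) (Finset.univ)
    convert h using 1
    ext v
    simp [D, Set.mem_iInter, Finset.inf_eq_iInf]
  obtain ⟨b, hbD, hb⟩ := hX n hn D hD ⟨Set.range fun k : ℕ => fun i : Fin n => k * n + (i : ℕ), by
      rintro _ ⟨k, rfl⟩ i
      simp [i0], by
      refine ⟨?_, ?_, ?_⟩
      · refine Set.infinite_range_of_injective fun k l hkl => ?_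
        have := congrFun hkl i0
        simp only [i0, Nat.add_zero] at this
        exact Nat.eq_of_mul_eq_mul_right hn this
      · rintro _ ⟨k, rfl⟩ i j hij
        simp only at hij
        exact Fin.ext (by omega)
      · rintro _ ⟨k, rfl⟩ _ ⟨l, rfl⟩ hne i j hij
        simp only at hij
        apply hne
        have h1 : (k * n + (i : ℕ)) / n = k := by
          rw [Nat.mul_comm, Nat.mul_add_div hn, Nat.div_eq_of_lt i.2, Nat.add_zero]
        have h2 : (l * n + (j : ℕ)) / n = l := by
          rw [Nat.mul_comm, Nat.mul_add_div hn, Nat.div_eq_of_lt j.2, Nat.add_zero]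
        rw [hij, h2] at h1
        rw [h1]⟩ ∅
  refine ⟨b i0, fun y h1 h2 hy => ?_⟩
  let i : Fin n := ⟨y - b i0, by omega⟩
  have h3 : b i = y := by
    rw [hbD i]
    simp only [i]
    omega
  have := (hb i).mp (by rw [h3]; exact hy)
  exact this

/-! ### Transfer -/

section Transfer

/-- a bound variable as a term -/
def bv {n : ℕ} (i : Fin n) : LPAU.Term (Empty ⊕ Fin n) := Term.var (Sum.inr i)

/-- sum of terms -/
def tadd {n : ℕ} (s t : LPAU.Term (Empty ⊕ Fin n)) : LPAU.Term (Empty ⊕ Fin n) :=
  Term.func (L := LPAU) (l := 2) PAFun.add ![s, t]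

/-- zero term -/
def tzero {n : ℕ} : LPAU.Term (Empty ⊕ Fin n) :=
  Term.func (L := LPAU) (l := 0) PAFun.zero ![]

/-- one term -/
def tone {n : ℕ} : LPAU.Term (Empty ⊕ Fin n) :=
  Term.func (L := LPAU) (l := 0) PAFun.one ![]

/-- order formula -/
def tlt {n : ℕ} (s t : LPAU.Term (Empty ⊕ Fin n)) : LPAU.BoundedFormula Empty n :=
  BoundedFormula.rel (L := LPAU) (l := 2) PAURel.lt ![s, t]

/-- predicate formula -/
def tU {n : ℕ} (s : LPAU.Term (Empty ⊕ Fin n)) : LPAU.BoundedFormula Empty n :=
  BoundedFormula.rel (L := LPAU) (l := 1) PAURel.U ![s]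

variable {M : Type u} (S : LPA.Structure M) (X : Set M)

theorem r_bv {n : ℕ} (i : Fin n) (v : Empty → M) (xs : Fin n → M) :
    @Term.realize LPAU M (expand S X) _ (Sum.elim v xs) (bv i) = xs i := rfl

theorem vec2 {α β : Type*} (f : α → β) (s t : α) : (fun i => f (![s, t] i)) = ![f s, f t] := by
  funext i
  fin_cases i <;> rfl

theorem vec1 {α β : Type*} (f : α → β) (s : α) : (fun i => f (![s] i)) = ![f s] := by
  funext i
  fin_cases i
  rfl

theorem r_add {n : ℕ} (s t : LPAU.Term (Empty ⊕ Fin n)) (v : Empty ⊕ Fin n → M) :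
    @Term.realize LPAU M (expand S X) _ v (tadd s t)
      = addM (@Term.realize LPAU M (expand S X) _ v s)
        (@Term.realize LPAU M (expand S X) _ v t) := by
  change S.funMap PAFun.add (fun i => @Term.realize LPAU M (expand S X) _ v (![s, t] i)) = _
  rw [vec2]
  rfl

theorem r_zero {n : ℕ} (v : Empty ⊕ Fin n → M) :
    @Term.realize LPAU M (expand S X) _ v (tzero : LPAU.Term (Empty ⊕ Fin n)) = zeroM := by
  change S.funMap PAFun.zero _ = S.funMap PAFun.zero _
  congr 1
  funext i
  exact i.elim0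

theorem r_one {n : ℕ} (v : Empty ⊕ Fin n → M) :
    @Term.realize LPAU M (expand S X) _ v (tone : LPAU.Term (Empty ⊕ Fin n)) = oneM := by
  change S.funMap PAFun.one _ = S.funMap PAFun.one _
  congr 1
  funext i
  exact i.elim0

theorem r_lt {n : ℕ} (s t : LPAU.Term (Empty ⊕ Fin n)) (v : Empty → M) (xs : Fin n → M) :
    @BoundedFormula.Realize LPAU M (expand S X) _ _ (tlt s t) v xs ↔
      ltM (@Term.realize LPAU M (expand S X) _ (Sum.elim v xs) s)
        (@Term.realize LPAU M (expand S X) _ (Sum.elim v xs) t) := by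
  change S.RelMap PARel.lt
    (fun i => @Term.realize LPAU M (expand S X) _ (Sum.elim v xs) (![s, t] i)) ↔ _
  rw [vec2]
  rfl

theorem r_U {n : ℕ} (s : LPAU.Term (Empty ⊕ Fin n)) (v : Empty → M) (xs : Fin n → M) :
    @BoundedFormula.Realize LPAU M (expand S X) _ _ (tU s) v xs ↔
      @Term.realize LPAU M (expand S X) _ (Sum.elim v xs) s ∈ X := Iff.rfl

/-- `∀ b, 0 < b ∨ 0 = b` -/
def sA : LPAU.Sentence :=
  BoundedFormula.all (tlt tzero (bv (0 : Fin 1)) ⊔ Term.bdEqual tzero (bv 0))

theorem sA_iff : @Sentence.Realize LPAU M (expand S X) sA ↔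
    ∀ b : M, ltM zeroM b ∨ zeroM = b := by
  unfold sA Sentence.Realize Formula.Realize
  simp only [BoundedFormula.realize_all, BoundedFormula.realize_sup, BoundedFormula.realize_bdEqual,
    r_lt, r_zero, r_bv]
  exact Iff.rfl

/-- `∀ a b, a < b → a + 1 < b ∨ a + 1 = b` -/
def sB : LPAU.Sentence :=
  BoundedFormula.all (BoundedFormula.all ((tlt (bv (0 : Fin 2)) (bv 1)).imp
    (tlt (tadd (bv 0) tone) (bv 1) ⊔ Term.bdEqual (tadd (bv 0) tone) (bv 1))))

theorem sB_iff : @Sentence.Realize LPAU M (expand S X) sB ↔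
    ∀ a b : M, ltM a b → (ltM (addM a oneM) b ∨ addM a oneM = b) := by
  unfold sB Sentence.Realize Formula.Realize
  simp only [BoundedFormula.realize_all, BoundedFormula.realize_sup, BoundedFormula.realize_bdEqual,
    BoundedFormula.realize_imp, r_lt, r_add, r_one, r_bv]
  exact Iff.rfl

/-- `∀ x a c, a < c → x + a < x + c` -/
def sC : LPAU.Sentence :=
  BoundedFormula.all (BoundedFormula.all (BoundedFormula.all ((tlt (bv (1 : Fin 3)) (bv 2)).imp
    (tlt (tadd (bv 0) (bv 1)) (tadd (bv 0) (bv 2))))))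

theorem sC_iff : @Sentence.Realize LPAU M (expand S X) sC ↔
    ∀ x a c : M, ltM a c → ltM (addM x a) (addM x c) := by
  unfold sC Sentence.Realize Formula.Realize
  simp only [BoundedFormula.realize_all, BoundedFormula.realize_imp, r_lt, r_add, r_bv]
  exact Iff.rfl

/-- `∀ x a, ¬ x + a < x` -/
def sD : LPAU.Sentence :=
  BoundedFormula.all (BoundedFormula.all (tlt (tadd (bv (0 : Fin 2)) (bv 1)) (bv 0)).not)

theorem sD_iff : @Sentence.Realize LPAU M (expand S X) sD ↔
    ∀ x a : M, ¬ ltM (addM x a) x := by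
  unfold sD Sentence.Realize Formula.Realize
  simp only [BoundedFormula.realize_all, BoundedFormula.realize_not, r_lt, r_add, r_bv]
  exact Iff.rfl

/-- `∀ x a b, x + a = x + b → a = b` -/
def sE : LPAU.Sentence :=
  BoundedFormula.all (BoundedFormula.all (BoundedFormula.all
    ((Term.bdEqual (tadd (bv (0 : Fin 3)) (bv 1)) (tadd (bv 0) (bv 2))).imp
    (Term.bdEqual (bv 1) (bv 2)))))

theorem sE_iff : @Sentence.Realize LPAU M (expand S X) sE ↔
    ∀ x a b : M, addM x a = addM x b → a = b := by
  unfold sE Sentence.Realize Formula.Realize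
  simp only [BoundedFormula.realize_all, BoundedFormula.realize_imp,
    BoundedFormula.realize_bdEqual, r_add, r_bv]
  exact Iff.rfl

/-- `∀ n, ∃ x, ∀ y, ¬ y < x → y < x + n → ¬ U y` -/
def sG : LPAU.Sentence :=
  BoundedFormula.all (BoundedFormula.ex (BoundedFormula.all
    ((tlt (bv (2 : Fin 3)) (bv 1)).not.imp
    ((tlt (bv 2) (tadd (bv 1) (bv 0))).imp (tU (bv 2)).not))))

theorem sG_iff : @Sentence.Realize LPAU M (expand S X) sG ↔
    ∀ n : M, ∃ x : M, ∀ y : M, ¬ ltM y x → ltM y (addM x n) → y ∉ X := by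
  unfold sG Sentence.Realize Formula.Realize
  simp only [BoundedFormula.realize_all, BoundedFormula.realize_imp, BoundedFormula.realize_ex,
    BoundedFormula.realize_not, r_lt, r_U, r_add, r_bv]
  exact Iff.rfl

end Transfer

theorem definable_interval {N : Type u} [LPA.Structure N] (x c : N) :
    (Set.univ : Set N).Definable LPA
      {v : Fin 1 → N | ¬ ltM (v 0) x ∧ ltM (v 0) (addM x c)} := by
  rw [Set.definable_iff_exists_formula_sum]
  have key : ∀ (s t : LPA.Term ((Set.univ : Set N) ⊕ Fin 1)) (w : (Set.univ : Set N) ⊕ Fin 1 → N),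
      (Relations.formula₂ (L := LPA) PARel.lt s t).Realize w ↔ ltM (s.realize w) (t.realize w) :=
    fun s t w => Formula.realize_rel₂
  have key2 : ∀ w : (Set.univ : Set N) ⊕ Fin 1 → N, w (Sum.inl ⟨x, trivial⟩) = x →
      w (Sum.inl ⟨c, trivial⟩) = c → Term.realize (L := LPA) w (Term.func (L := LPA) (l := 2)
        PAFun.add ![Term.var (Sum.inl ⟨x, trivial⟩), Term.var (Sum.inl ⟨c, trivial⟩)]) =
        addM x c := by
    intro w hx hc
    change Structure.funMap (L := LPA) PAFun.add (fun i => Term.realize (L := LPA) w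
      (![Term.var (Sum.inl ⟨x, trivial⟩), Term.var (Sum.inl ⟨c, trivial⟩)] i)) = _
    rw [vec2, Term.realize_var, Term.realize_var, hx, hc]
    rfl
  refine ⟨(Relations.formula₂ (L := LPA) PARel.lt (Term.var (Sum.inr 0))
      (Term.var (Sum.inl ⟨x, trivial⟩))).not ⊓
    (Relations.formula₂ (L := LPA) PARel.lt (Term.var (Sum.inr 0))
      (Term.func (L := LPA) (l := 2) PAFun.add
        ![Term.var (Sum.inl ⟨x, trivial⟩), Term.var (Sum.inl ⟨c, trivial⟩)])), ?_⟩
  ext v
  change _ ↔ Formula.Realize _ _
  rw [Formula.realize_inf, Formula.realize_not, key, key, key2 _ rfl rfl]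
  exact Iff.rfl

/-- every proper elementary extension of `(ℕ, X)` with `X` strongly CP-generic fails to be
strongly CP-generic -/
theorem main {X : Set ℕ} (hX : StronglyCPGeneric X) {N : Type u} (SN : LPA.Structure N)
    (Y : Set N) (j : ℕ → N) (hj : IsProperElemExt natStructure X SN Y j) :
    ¬ StronglyCPGeneric Y := by
  intro hY
  obtain ⟨⟨e, he⟩, hns⟩ := hj
  have tr : ∀ σ : LPAU.Sentence, @Sentence.Realize LPAU ℕ (expand natStructure X) σ →
      @Sentence.Realize LPAU N (expand SN Y) σ := fun σ h =>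
    (@ElementaryEmbedding.map_sentence LPAU ℕ N (expand natStructure X) (expand SN Y) e σ).mp h
  have hA := (sA_iff SN Y).mp (tr sA ((sA_iff natStructure X).mpr (by
    intro b; simp only [nat_lt, nat_zero]; omega)))
  have hB := (sB_iff SN Y).mp (tr sB ((sB_iff natStructure X).mpr (by
    intro a b; simp only [nat_lt, nat_add, nat_one]; omega)))
  have hC := (sC_iff SN Y).mp (tr sC ((sC_iff natStructure X).mpr (by
    intro x a c; simp only [nat_lt, nat_add]; omega)))
  have hD := (sD_iff SN Y).mp (tr sD ((sD_iff natStructure X).mpr (by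
    intro x a; simp only [nat_lt, nat_add]; omega)))
  have hE := (sE_iff SN Y).mp (tr sE ((sE_iff natStructure X).mpr (by
    intro x a b; simp only [nat_add]; omega)))
  have hG := (sG_iff SN Y).mp (tr sG ((sG_iff natStructure X).mpr (by
    intro n
    obtain ⟨x, hx⟩ := gaps hX n
    refine ⟨x, fun y h1 h2 => hx y ?_ ?_⟩
    · simpa using h1
    · simpa using h2)))
  have hj0 : j 0 = zeroM := by
    have h := @ElementaryEmbedding.map_fun LPAU ℕ N (expand natStructure X) (expand SN Y) e 0
      PAFun.zero ![]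
    rw [he] at h
    change j 0 = SN.funMap PAFun.zero _ at h
    rw [h]
    unfold zeroM
    congr 1
    funext i
    exact i.elim0
  have hj1 : j 1 = oneM := by
    have h := @ElementaryEmbedding.map_fun LPAU ℕ N (expand natStructure X) (expand SN Y) e 0
      PAFun.one ![]
    rw [he] at h
    change j 1 = SN.funMap PAFun.one _ at h
    rw [h]
    unfold oneM
    congr 1
    funext i
    exact i.elim0
  have hjadd : ∀ a b : ℕ, j (a + b) = addM (j a) (j b) := by
    intro a b
    have h := @ElementaryEmbedding.map_fun LPAU ℕ N (expand natStructure X) (expand SN Y) e 2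
      PAFun.add ![a, b]
    rw [he] at h
    change j (a + b) = SN.funMap PAFun.add _ at h
    rw [h]
    unfold addM
    congr 1
    funext i
    fin_cases i <;> rfl
  have hjinj : Function.Injective j := by
    rw [← he]
    exact @ElementaryEmbedding.injective LPAU ℕ N (expand natStructure X) (expand SN Y) e
  have hc : ∃ c : N, ∀ k, j k ≠ c := by
    by_contra hcon
    push Not at hcon
    exact hns hcon
  obtain ⟨c, hc⟩ := hc
  have hlt : ∀ k, ltM (j k) c := by
    intro k
    induction k with
    | zero =>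
      rcases hA c with h | h
      · rw [hj0]; exact h
      · exact absurd (by rw [hj0]; exact h) (hc 0)
    | succ k ih =>
      rw [hjadd, hj1]
      rcases hB _ _ ih with h | h
      · exact h
      · exact absurd (by rw [hjadd, hj1]; exact h) (hc (k + 1))
  obtain ⟨x, hx⟩ := hG c
  obtain ⟨b, hb, hbY⟩ := hY 1 le_rfl _ (definable_interval x c)
    ⟨Set.range fun k : ℕ => fun _ : Fin 1 => addM x (j k), by
      rintro _ ⟨k, rfl⟩
      exact ⟨hD x (j k), hC x (j k) c (hlt k)⟩, by
      refine ⟨?_, ?_, ?_⟩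
      · refine Set.infinite_range_of_injective fun k l hkl => ?_
        have := congrFun hkl 0
        exact hjinj (hE x _ _ this)
      · rintro _ ⟨k, rfl⟩ i j' _
        exact Subsingleton.elim _ _
      · rintro _ ⟨k, rfl⟩ _ ⟨l, rfl⟩ hne i j' hij
        apply hne
        funext _
        exact hij⟩ Set.univ
  exact hx (b 0) hb.1 hb.2 ((hbY 0).mpr trivial)

/-- Q1 is false.  (1) `ℕ` is a model of PA that has a strongly CP-generic subset `X`, such that no
proper elementary extension `(N, Y)` of `(ℕ, X)` has `Y` strongly CP-generic in `N`; in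
fact (2) this holds for every strongly CP-generic `X ⊆ ℕ`. -/
theorem result :
    IsPAModel ℕ ∧ (∃ X : Set ℕ, StronglyCPGeneric X) ∧
    (∀ X : Set ℕ, StronglyCPGeneric X → ∀ (N : Type u) (SN : LPA.Structure N) (Y : Set N)
      (j : ℕ → N), IsProperElemExt natStructure X SN Y j → ¬ StronglyCPGeneric Y) ∧
    ¬ (∀ (M : Type) (SM : LPA.Structure M), IsPAModel M → ∀ X : Set M, StronglyCPGeneric X →
      ∃ (N : Type) (SN : LPA.Structure N) (Y : Set N) (j : M → N),
        IsProperElemExt SM X SN Y j ∧ StronglyCPGeneric Y) := by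
  refine ⟨nat_isPAModel, exists_stronglyCPGeneric,
    fun X hX N SN Y j hj => main hX SN Y j hj, ?_⟩
  intro h
  obtain ⟨X, hX⟩ := exists_stronglyCPGeneric
  obtain ⟨N, SN, Y, j, hj, hY⟩ := h ℕ natStructure nat_isPAModel X hX
  exact main hX SN Y j hj hY

end Pool.Agent.Results.MP_486437_lc.StandardModelCounterexample
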